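import Mathlib
import Pool.Agent.Helper903.ES.Main

/-!
# MP_06e9af_co: Ramsey numbers of trees with an odd number of vertices (Burr-Erdos)

For every odd `n ≥ 3` every tree `T` on `n` vertices satisfies `R(T) ≤ 2 n - 3`, and `2 n - 3` is
the largest Ramsey number of a tree on `n` vertices.

More generally, for `k` colours and trees `T i` with `m i ≥ 2` vertices,
`R(T 1, ..., T k) ≤ ∑ (m i - 2) + 1` if the number of the indices `i` with `m i` odd is even and
positive.

Proof.  If no class contains its tree, the Erdos-Sos theorem of the library file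
`Pool.Agent.Helper903.ES.Main` bounds the number of edges of the class `i` by `(m i - 2) N / 2`.
The sum of these bounds is `N (N - 1) / 2` for `N = ∑ (m i - 2) + 1`, hence all of them are
equalities, which is impossible for an index with `m i` odd, because `N` is odd.
-/

set_option autoImplicit false

namespace Pool.Agent.Results.MP_06e9af_co.OddOrder

/-- `K_N → H`: every colouring `c` of the edges of the complete graph on `N` vertices with two
colours contains a monochromatic copy of `H`: there are a colour `i` and an injective map `f` from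
the vertices of `H` to the `N` vertices such that every edge of `H` is mapped to an edge of
colour `i`. -/
def Arrows {W : Type} (H : SimpleGraph W) (N : ℕ) : Prop :=
  ∀ c : Sym2 (Fin N) → Fin 2, ∃ i : Fin 2, ∃ f : W ↪ Fin N,
    ∀ a b : W, H.Adj a b → c s(f a, f b) = i

/-- one colour class -/
def cls {k r : ℕ} (c : Sym2 (Fin r) → Fin k) (i : Fin k) : SimpleGraph (Fin r) where
  Adj x y := x ≠ y ∧ c s(x, y) = i
  symm := ⟨fun x y h => ⟨h.1.symm, by rw [Sym2.eq_swap]; exact h.2⟩⟩
  loopless := ⟨fun x h => h.1 rfl⟩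

open Classical in
theorem sum_cls {k r : ℕ} (c : Sym2 (Fin r) → Fin k) :
    2 * ∑ i : Fin k, (cls c i).edgeFinset.card = r * (r - 1) := by
  have h1 : ∀ i : Fin k, (cls c i).edgeFinset =
      (⊤ : SimpleGraph (Fin r)).edgeFinset.filter (fun e => c e = i) := by
    intro i
    ext e
    induction e with
    | _ x y =>
      rw [SimpleGraph.mem_edgeFinset, SimpleGraph.mem_edgeSet, Finset.mem_filter,
        SimpleGraph.mem_edgeFinset, SimpleGraph.mem_edgeSet, SimpleGraph.top_adj]
      rfl
  have h2 := Finset.card_eq_sum_card_fiberwise (s := (⊤ : SimpleGraph (Fin r)).edgeFinset)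
    (t := (Finset.univ : Finset (Fin k))) (f := c) (fun _ _ => by simp)
  have h3 : (⊤ : SimpleGraph (Fin r)).edgeFinset.card = r * (r - 1) / 2 := by
    have := SimpleGraph.card_edgeFinset_top_eq_card_choose_two (V := Fin r)
    rw [Fintype.card_fin, Nat.choose_two_right] at this
    convert this
  have h4 : ∑ i : Fin k, (cls c i).edgeFinset.card = r * (r - 1) / 2 := by
    rw [← h3, h2]
    exact Finset.sum_congr rfl fun i _ => by rw [h1]
  rw [h4]
  exact Nat.two_mul_div_two_of_even (Nat.even_mul_pred_self r)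

/-- the statement for `k` colours -/
theorem arrows_of_parity {k : ℕ} (m : Fin k → ℕ) (hm : ∀ i, 2 ≤ m i) (i₀ : Fin k)
    (hodd : Odd (m i₀)) (heven : Even (∑ i, (m i - 2))) (T : ∀ i, SimpleGraph (Fin (m i)))
    (hT : ∀ i, (T i).IsTree) (N : ℕ) (hN : ∑ i, (m i - 2) + 1 ≤ N) (c : Sym2 (Fin N) → Fin k) :
    ∃ i : Fin k, ∃ f : Fin (m i) ↪ Fin N, ∀ a b, (T i).Adj a b → c s(f a, f b) = i := by
  classical
  by_contra hcon
  have h0 : ∀ i, 2 * (cls c i).edgeFinset.card ≤ (m i - 2) * N := by
    intro i
    by_contra h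
    push Not at h
    have hmi := hm i
    have hh : (m i - 1 - 1) * Fintype.card (Fin N) < 2 * (cls c i).edgeFinset.card := by
      rw [Fintype.card_fin]
      have e : m i - 1 - 1 = m i - 2 := by omega
      rw [e]; exact h
    obtain ⟨f, hf⟩ := ES903.erdos_sos (cls c i) (m i - 1) hh (T i) (hT i)
      (by rw [Fintype.card_fin]; omega)
    exact hcon ⟨i, f, fun a b hab => (hf a b hab).2⟩
  have h1 : ∑ i, 2 * (cls c i).edgeFinset.card = N * (N - 1) := by
    rw [← Finset.mul_sum]; exact sum_cls c
  have h2 : ∑ i, (m i - 2) * N = N * ∑ i, (m i - 2) := by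
    rw [← Finset.sum_mul, mul_comm]
  have h3 : N * (N - 1) ≤ N * ∑ i, (m i - 2) := by
    rw [← h1, ← h2]; exact Finset.sum_le_sum fun i _ => h0 i
  have hN0 : 0 < N := by omega
  have h4 := Nat.le_of_mul_le_mul_left h3 hN0
  have h5 : N = ∑ i, (m i - 2) + 1 := by omega
  have h6 : ∑ i, 2 * (cls c i).edgeFinset.card = ∑ i, (m i - 2) * N := by
    rw [h1, h2]
    congr 1
    omega
  have h7 := (Finset.sum_eq_sum_iff_of_le fun i _ => h0 i).1 h6 i₀ (Finset.mem_univ _)
  have h8 : Odd ((m i₀ - 2) * N) := by
    apply Nat.odd_mul.2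
    constructor
    · have := hm i₀
      rw [Nat.odd_sub this]
      exact ⟨fun _ => even_two, fun _ => hodd⟩
    · rw [h5]
      exact heven.add_one
  rw [← h7] at h8
  exact (Nat.not_odd_iff_even.2 (even_two_mul _)) h8

/-- the Ramsey number `R(H)`: the least `N` such that every colouring of the edges of `K_N` with
two colours contains a monochromatic copy of `H` -/
noncomputable def ramsey {W : Type} (H : SimpleGraph W) : ℕ := sInf {N | Arrows H N}

open Classical in
/-- stars need `2 n - 3` vertices -/
theorem star_not_arrows (n : ℕ) (hn : 3 ≤ n) (r : Fin n) (N : ℕ) (hN : N ≤ 2 * n - 4) :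
    ¬ Arrows (SimpleGraph.starGraph r) N := by
  intro h
  let P : Fin N → Prop := fun x => x.val < n - 2
  let c : Sym2 (Fin N) → Fin 2 := fun e => if (∀ x ∈ e, P x) ∨ (∀ x ∈ e, ¬ P x) then 0 else 1
  obtain ⟨i, f, hf⟩ := h c
  have hb : ∀ b, b ≠ r → c s(f r, f b) = i := fun b hb =>
    hf r b (SimpleGraph.starGraph_center_adj hb.symm)
  have hcardA : (Finset.univ.filter (fun x : Fin N => P x)).card ≤ n - 2 := by
    have h1 : (Finset.univ.filter (fun x : Fin N => P x)).card ≤ (Finset.range (n - 2)).card := by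
      apply Finset.card_le_card_of_injOn (fun x : Fin N => x.val)
      · intro x hx
        simpa [P] using hx
      · intro x _ y _ hxy
        exact Fin.ext hxy
    simpa using h1
  have hcardB : (Finset.univ.filter (fun x : Fin N => ¬ P x)).card ≤ n - 2 := by
    have h1 : (Finset.univ.filter (fun x : Fin N => ¬ P x)).card ≤
        (Finset.range (n - 2)).card := by
      apply Finset.card_le_card_of_injOn (fun x : Fin N => x.val - (n - 2))
      · intro x hx
        have h2 : ¬ x.val < n - 2 := by simpa [P] using hx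
        have := x.isLt
        simp only [Finset.coe_range, Set.mem_Iio]
        omega
      · intro x hx y hy hxy
        have h2 : ¬ x.val < n - 2 := by simpa [P] using hx
        have h3 : ¬ y.val < n - 2 := by simpa [P] using hy
        have h4 : x.val - (n - 2) = y.val - (n - 2) := hxy
        apply Fin.ext
        omega
    simpa using h1
  have hside : ∃ S : Finset (Fin N), S.card ≤ n - 2 ∧ ∀ b, b ≠ r → f b ∈ S := by
    by_cases hi : i = 0
    · have hq : ∀ b, b ≠ r → (∀ x ∈ s(f r, f b), P x) ∨ (∀ x ∈ s(f r, f b), ¬ P x) := by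
        intro b hbr
        by_contra hcon
        have h1 := hb b hbr
        simp only [c, if_neg hcon, hi] at h1
        exact absurd h1 (by decide)
      by_cases hr : P (f r)
      · refine ⟨_, hcardA, fun b hbr => ?_⟩
        rcases hq b hbr with h1 | h1
        · simpa using h1 (f b) (by simp)
        · exact absurd hr (h1 (f r) (by simp))
      · refine ⟨_, hcardB, fun b hbr => ?_⟩
        rcases hq b hbr with h1 | h1
        · exact absurd (h1 (f r) (by simp)) hr
        · simpa using h1 (f b) (by simp)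
    · have hq : ∀ b, b ≠ r → ¬ ((∀ x ∈ s(f r, f b), P x) ∨ (∀ x ∈ s(f r, f b), ¬ P x)) := by
        intro b hbr hcon
        have h1 := hb b hbr
        simp only [c, if_pos hcon] at h1
        exact hi h1.symm
      by_cases hr : P (f r)
      · refine ⟨_, hcardB, fun b hbr => ?_⟩
        rw [Finset.mem_filter]
        refine ⟨Finset.mem_univ _, fun hP => hq b hbr (Or.inl fun x hx => ?_)⟩
        rcases Sym2.mem_iff.1 hx with rfl | rfl
        · exact hr
        · exact hP
      · refine ⟨_, hcardA, fun b hbr => ?_⟩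
        rw [Finset.mem_filter]
        refine ⟨Finset.mem_univ _, ?_⟩
        by_contra hP
        refine hq b hbr (Or.inr fun x hx => ?_)
        rcases Sym2.mem_iff.1 hx with rfl | rfl
        · exact hr
        · exact hP
  obtain ⟨S, h1, h2⟩ := hside
  have h3 : (Finset.univ.erase r).card ≤ S.card :=
    Finset.card_le_card_of_injOn f (fun b hb => h2 b (Finset.ne_of_mem_erase hb))
      (f.injective.injOn)
  rw [Finset.card_erase_of_mem (Finset.mem_univ _), Finset.card_univ, Fintype.card_fin] at h3
  omega

/-- the upper bound for `k` colours; the number of the indices `i` with `m i` odd is even and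
positive -/
theorem upper {k : ℕ} (m : Fin k → ℕ) (hm : ∀ i, 2 ≤ m i)
    (hpos : 0 < (Finset.univ.filter (fun i => Odd (m i))).card)
    (heven : Even (Finset.univ.filter (fun i => Odd (m i))).card)
    (T : ∀ i, SimpleGraph (Fin (m i))) (hT : ∀ i, (T i).IsTree)
    (N : ℕ) (hN : ∑ i, (m i - 2) + 1 ≤ N) (c : Sym2 (Fin N) → Fin k) :
    ∃ i : Fin k, ∃ f : Fin (m i) ↪ Fin N, ∀ a b, (T i).Adj a b → c s(f a, f b) = i := by
  obtain ⟨i₀, hi₀⟩ := Finset.card_pos.1 hpos
  have hodd : ∀ i, Odd (m i - 2) ↔ Odd (m i) := by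
    intro i
    rw [Nat.odd_sub (hm i)]
    simp
  refine arrows_of_parity m hm i₀ (Finset.mem_filter.1 hi₀).2 ?_ T hT N hN c
  rw [Finset.even_sum_iff_even_card_odd]
  simp only [hodd]
  exact heven

/-- **Burr-Erdos, odd order.**  For every odd `n ≥ 3`, every tree `T` on `n` vertices and
every `N ≥ 2 n - 3` every colouring of the edges of `K_N` with two colours contains a
monochromatic copy of `T`, so that `R(T)` exists and is at most `2 n - 3`; and every star on `n`
vertices is a tree with `R(T) = 2 n - 3`. -/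
theorem result (n : ℕ) (hodd : Odd n) (hn : 3 ≤ n) :
    (∀ T : SimpleGraph (Fin n), T.IsTree →
      (∀ N : ℕ, 2 * n - 3 ≤ N → Arrows T N) ∧ Arrows T (ramsey T) ∧ ramsey T ≤ 2 * n - 3) ∧
    ∀ r : Fin n, (SimpleGraph.starGraph r).IsTree ∧
      ramsey (SimpleGraph.starGraph r) = 2 * n - 3 := by
  have hup : ∀ T : SimpleGraph (Fin n), T.IsTree → ∀ N : ℕ, 2 * n - 3 ≤ N → Arrows T N := by
    intro T hT N hN c
    have h1 : (Finset.univ.filter (fun _ : Fin 2 => Odd n)).card = 2 := by
      rw [Finset.filter_true_of_mem fun _ _ => hodd]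
      simp
    exact upper (fun _ => n) (fun _ => by omega) (by rw [h1]; omega) (by rw [h1]; exact even_two)
      (fun _ => T) (fun _ => hT) N
      (by rw [Finset.sum_const, Finset.card_univ, Fintype.card_fin, smul_eq_mul]; omega) c
  have hall : ∀ T : SimpleGraph (Fin n), T.IsTree →
      (∀ N : ℕ, 2 * n - 3 ≤ N → Arrows T N) ∧ Arrows T (ramsey T) ∧ ramsey T ≤ 2 * n - 3 := by
    intro T hT
    have h2 : 2 * n - 3 ∈ {N | Arrows T N} := hup T hT _ le_rfl
    exact ⟨hup T hT, Nat.sInf_mem ⟨_, h2⟩, Nat.sInf_le h2⟩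
  refine ⟨hall, fun r => ⟨SimpleGraph.isTree_starGraph r, ?_⟩⟩
  obtain ⟨-, h1, h2⟩ := hall (SimpleGraph.starGraph r) (SimpleGraph.isTree_starGraph r)
  refine le_antisymm h2 ?_
  by_contra hlt
  push Not at hlt
  exact star_not_arrows n hn r _ (by omega) h1

end Pool.Agent.Results.MP_06e9af_co.OddOrder
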